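import Pool.Agent.R955.FD.Defs

/-! FD-TRV: no upper estimates with `p = 1 < q`. -/

set_option autoImplicit false

namespace Pool.Agent.R374.FD

open MeasureTheory Set Filter Topology
open scoped ENNReal
open Pool.Agent.R955.FD

universe u

theorem ch_norm (ξ t : ℝ) : ‖ch ξ t‖ = 1 := Complex.norm_exp_ofReal_mul_I _

theorem ch_cont (ξ : ℝ) : Continuous (ch ξ) := by
  unfold ch
  fun_prop

theorem ch_add (ξ η t : ℝ) : ch (ξ + η) t = ch ξ t * ch η t := by
  unfold ch
  rw [← Complex.exp_add]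
  congr 1
  push_cast
  ring

section
variable {X : Type u} [NormedAddCommGroup X] [NormedSpace ℂ X]

theorem trig_add (c d : ℤ →₀ X) (t : ℝ) : trig (c + d) t = trig c t + trig d t := by
  unfold trig
  exact Finsupp.sum_add_index' (fun _ => smul_zero _) (fun _ _ _ => smul_add _ _ _)

theorem trig_zero (t : ℝ) : trig (0 : ℤ →₀ X) t = 0 := Finsupp.sum_zero_index

theorem trig_sum {ι : Type} (s : Finset ι) (c : ι → ℤ →₀ X) (t : ℝ) :
    trig (∑ i ∈ s, c i) t = ∑ i ∈ s, trig (c i) t := by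
  classical
  induction s using Finset.induction_on with
  | empty => rw [Finset.sum_empty, Finset.sum_empty, trig_zero]
  | insert a s ha ih => rw [Finset.sum_insert ha, Finset.sum_insert ha, trig_add, ih]

theorem trig_single (n : ℤ) (y : X) (t : ℝ) : trig (Finsupp.single n y) t = ch (n : ℝ) t • y :=
  Finsupp.sum_single_index (smul_zero _)

theorem trig_cont (c : ℤ →₀ X) : Continuous (trig c) := by
  unfold trig Finsupp.sum
  exact continuous_finsetSum _ fun n _ => (ch_cont _).smul continuous_const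

/-- a block: the frequencies of `d` shifted by `s`, values in the line of `x` -/
noncomputable def blk (x : X) (s : ℤ) (d : ℤ →₀ ℂ) : ℤ →₀ X :=
  ∑ n ∈ d.support, Finsupp.single (n + s) (d n • x)

theorem trig_blk (x : X) (s : ℤ) (d : ℤ →₀ ℂ) (t : ℝ) :
    trig (blk x s d) t = (ch (s : ℝ) t * trig d t) • x := by
  rw [blk, trig_sum]
  have : trig d t = ∑ n ∈ d.support, ch (n : ℝ) t * d n := rfl
  rw [this, Finset.mul_sum, Finset.sum_smul]
  refine Finset.sum_congr rfl fun n _ => ?_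
  rw [trig_single, smul_smul]
  congr 1
  push_cast
  rw [ch_add]
  ring

theorem nT_one (c : ℤ →₀ X) : nT 1 (trig c) = ENNReal.ofReal (∫ t in Ioc (0:ℝ) 1, ‖trig c t‖) := by
  unfold nT
  rw [eLpNorm_one_eq_lintegral_enorm, ofReal_integral_norm_eq_lintegral_enorm]
  exact ((trig_cont c).integrableOn_Icc (a := 0) (b := 1)).mono_set Ioc_subset_Icc_self

end

theorem approx (b : ℝ → ℝ) (hb : Continuous b) (h0 : b 0 = b 1) (δ : ℝ) (hδ : 0 < δ) :
    ∃ d : ℤ →₀ ℂ, ∀ t ∈ Icc (0:ℝ) 1, ‖trig d t - (b t : ℂ)‖ ≤ δ := by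
  have : Fact ((0:ℝ) < 1) := ⟨one_pos⟩
  let F : C(AddCircle (1:ℝ), ℂ) := ⟨AddCircle.liftIco 1 0 (fun t : ℝ => (b t : ℂ)),
    AddCircle.liftIco_zero_continuous (by rw [h0]) (Complex.continuous_ofReal.comp hb).continuousOn⟩
  have hF : ∀ t ∈ Icc (0:ℝ) 1, F (t : AddCircle (1:ℝ)) = (b t : ℂ) := by
    intro t ht
    rcases ht.2.eq_or_lt with h | h
    · have h1 : ((t : ℝ) : AddCircle (1:ℝ)) = ((0:ℝ) : AddCircle (1:ℝ)) := by
        rw [h, AddCircle.coe_period]
        rfl
      rw [h1]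
      have := AddCircle.liftIco_zero_coe_apply (p := (1:ℝ)) (f := fun t : ℝ => (b t : ℂ))
        (x := 0) ⟨le_rfl, one_pos⟩
      change AddCircle.liftIco 1 0 (fun t : ℝ => (b t : ℂ)) _ = _
      rw [this, h, h0]
    · exact AddCircle.liftIco_zero_coe_apply (p := (1:ℝ)) (f := fun t : ℝ => (b t : ℂ)) ⟨ht.1, h⟩
  have hFm : F ∈ (Submodule.span ℂ (range <| fourier (T := (1:ℝ)))).topologicalClosure := by
    rw [span_fourier_closure_eq_top]
    trivial
  rw [← SetLike.mem_coe, Submodule.topologicalClosure_coe, Metric.mem_closure_iff] at hFm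
  obtain ⟨y, hy, hd⟩ := hFm δ hδ
  rw [SetLike.mem_coe, Finsupp.mem_span_range_iff_exists_finsupp] at hy
  obtain ⟨d, hd'⟩ := hy
  refine ⟨d, fun t ht => ?_⟩
  have h1 : trig d t = y (t : AddCircle (1:ℝ)) := by
    rw [← hd']
    unfold trig Finsupp.sum
    rw [ContinuousMap.sum_apply]
    refine Finset.sum_congr rfl fun n _ => ?_
    rw [ContinuousMap.smul_apply, fourier_coe_apply, smul_eq_mul]
    change ch (n : ℝ) t * d n = _
    rw [mul_comm]
    congr 1
    unfold ch
    congr 1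
    push_cast
    ring
  rw [h1, ← hF t ht, ← dist_eq_norm, dist_comm]
  exact (ContinuousMap.dist_apply_le_dist _).trans hd.le

/-- the bump -/
noncomputable def bet (M : ℕ) (t : ℝ) : ℝ := max 0 (t * (1 / M - t))

theorem bet_cont (M : ℕ) : Continuous (bet M) := by
  unfold bet
  fun_prop

theorem bet_nonneg (M : ℕ) (t : ℝ) : 0 ≤ bet M t := le_max_left _ _

theorem bet_ne {M : ℕ} {t : ℝ} (h : bet M t ≠ 0) : 0 < t ∧ t < 1 / M := by
  unfold bet at h
  have h1 : 0 < t * (1 / M - t) := by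
    by_contra hcon
    push Not at hcon
    exact h (max_eq_left hcon)
  rcases lt_trichotomy t 0 with h2 | h2 | h2
  · have : (0:ℝ) ≤ 1 / M := by positivity
    nlinarith
  · rw [h2] at h1
    simp at h1
  · refine ⟨h2, ?_⟩
    have := (mul_pos_iff_of_pos_left h2).1 h1
    linarith

theorem bet_int (M : ℕ) (hM : 1 ≤ M) : 0 < ∫ t, bet M t := by
  have hM' : (0:ℝ) < M := by exact_mod_cast hM
  refine Continuous.integral_pos_of_hasCompactSupport_nonneg_nonzero (bet_cont M)
    (HasCompactSupport.of_support_subset_isCompact (isCompact_Icc (a := (0:ℝ)) (b := 1 / M)) ?_)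
    (bet_nonneg M) (x := 1 / (2 * M)) ?_
  · intro t ht
    have := bet_ne ht
    exact ⟨this.1.le, this.2.le⟩
  · unfold bet
    have : 0 < 1 / (2 * (M:ℝ)) * (1 / M - 1 / (2 * M)) := by
      have e : 1 / (M:ℝ) - 1 / (2 * M) = 1 / (2 * M) := by field_simp; ring
      rw [e]
      positivity
    rw [max_eq_right this.le]
    exact this.ne'

theorem bet_shift {M : ℕ} (hM : 1 ≤ M) {j : ℕ} (hj : j < M) :
    ∫ t in Ioc (0:ℝ) 1, bet M (t - j / M) = ∫ t, bet M t := by
  have hM' : (0:ℝ) < M := by exact_mod_cast hM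
  rw [setIntegral_eq_integral_of_forall_compl_eq_zero, integral_sub_right_eq_self (bet M)]
  intro t ht
  by_contra hne
  obtain ⟨h1, h2⟩ := bet_ne hne
  apply ht
  have h3 : (0:ℝ) ≤ j / M := by positivity
  have h4 : (j:ℝ) / M + 1 / M ≤ 1 := by
    rw [← add_div, div_le_one hM']
    exact_mod_cast hj
  exact ⟨by linarith, by linarith⟩

/-- the partition -/
def Jp (K : ℤ) (i : ℕ) : Set ℤ := {n | ((n + K) / (2 * K + 1)).toNat = i}

theorem Jp_part (K : ℤ) (hK : 0 ≤ K) : IsIntPart (Jp K) := by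
  refine ⟨fun i => ?_, fun i j hij => ?_, fun n => ⟨_, rfl⟩⟩
  · have hmono : Monotone fun n : ℤ => ((n + K) / (2 * K + 1)).toNat := by
      intro a b hab
      refine Int.toNat_le_toNat ?_
      exact Int.ediv_le_ediv (by omega) (by omega)
    have : Jp K i = (fun n : ℤ => ((n + K) / (2 * K + 1)).toNat) ⁻¹' {i} := rfl
    rw [this]
    exact ordConnected_singleton.preimage_mono hmono
  · rw [Set.disjoint_left]
    intro n hn hn'
    exact hij (hn.symm.trans hn')

theorem Jp_mem (K : ℤ) (n : ℤ) (hn : |n| ≤ K) (i j : ℕ) :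
    n + j * (2 * K + 1) ∈ Jp K i ↔ i = j := by
  have h1 := abs_le.1 hn
  unfold Jp
  rw [Set.mem_ofPred_eq]
  have h2 : n + j * (2 * K + 1) + K = (n + K) + j * (2 * K + 1) := by ring
  rw [h2, Int.add_mul_ediv_right _ _ (by omega), Int.ediv_eq_zero_of_lt (by omega) (by omega),
    zero_add, Int.toNat_natCast]
  exact eq_comm

section
variable {X : Type u} [NormedAddCommGroup X] [NormedSpace ℂ X]

theorem DT_blk (K : ℤ) (d : ℕ → ℤ →₀ ℂ) (M : ℕ) (hd : ∀ j < M, ∀ n ∈ (d j).support, |n| ≤ K) (x : X)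
    (i : ℕ) : DT (Jp K i) (∑ j ∈ Finset.range M, blk x (j * (2 * K + 1)) (d j)) =
      if i < M then trig (blk x (i * (2 * K + 1)) (d i)) else 0 := by
  classical
  have h1 : ∀ j < M, (blk x (j * (2 * K + 1)) (d j)).filter (fun n => n ∈ Jp K i) =
      if j = i then blk x (j * (2 * K + 1)) (d j) else 0 := by
    intro j hj
    unfold blk
    rw [Finsupp.filter_sum]
    by_cases hji : j = i
    · rw [if_pos hji]
      refine Finset.sum_congr rfl fun n hn => ?_
      rw [Finsupp.filter_single_of_pos]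
      exact (Jp_mem K n (hd j hj n hn) i j).2 hji.symm
    · rw [if_neg hji]
      refine Finset.sum_eq_zero fun n hn => ?_
      rw [Finsupp.filter_single_of_neg]
      rw [Jp_mem K n (hd j hj n hn) i j]
      exact fun h => hji h.symm
  have h2 : (∑ j ∈ Finset.range M, blk x (j * (2 * K + 1)) (d j)).filter (fun n => n ∈ Jp K i) =
      if i < M then blk x (i * (2 * K + 1)) (d i) else 0 := by
    rw [Finsupp.filter_sum, Finset.sum_congr rfl fun j hj => h1 j (Finset.mem_range.1 hj)]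
    rw [Finset.sum_ite_eq' (Finset.range M) i]
    simp only [Finset.mem_range]
  unfold DT
  have h3 : trig ((∑ j ∈ Finset.range M, blk x (j * (2 * K + 1)) (d j)).filter
      (fun n => n ∈ Jp K i)) = if i < M then trig (blk x (i * (2 * K + 1)) (d i)) else 0 := by
    rw [h2]
    by_cases h : i < M
    · rw [if_pos h, if_pos h]
    · rw [if_neg h, if_neg h]
      funext t
      exact trig_zero t
  convert h3

theorem lq_bound (q : ℝ≥0∞) (hq : 1 < q) (a : ℕ → ℝ≥0∞) (M : ℕ) (hM : 1 ≤ M) (E : ℝ≥0∞)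
    (h0 : ∀ i, M ≤ i → a i = 0) (h1 : ∀ i, a i ≤ E) :
    lq q a ≤ (M : ℝ≥0∞) ^ (1 / q.toReal) * E := by
  unfold lq
  split_ifs with hq'
  · rw [hq']
    simp only [ENNReal.toReal_top, div_zero, ENNReal.rpow_zero, one_mul]
    exact iSup_le h1
  · have hq1 : 1 < q.toReal := by
      rw [← ENNReal.toReal_one]
      exact (ENNReal.toReal_lt_toReal ENNReal.one_ne_top hq').2 hq
    have hq0 : 0 < q.toReal := by linarith
    have h2 : ∑' i, a i ^ q.toReal ≤ M * E ^ q.toReal := by
      rw [tsum_eq_sum (s := Finset.range M) (fun i hi => by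
        rw [h0 i (by simpa using hi), ENNReal.zero_rpow_of_pos hq0])]
      have := Finset.sum_le_card_nsmul (Finset.range M) (fun i => a i ^ q.toReal) (E ^ q.toReal)
        (fun i _ => ENNReal.rpow_le_rpow (h1 i) hq0.le)
      simpa using this
    calc (∑' i, a i ^ q.toReal) ^ (1 / q.toReal) ≤ (M * E ^ q.toReal) ^ (1 / q.toReal) :=
          ENNReal.rpow_le_rpow h2 (by positivity)
      _ = (M : ℝ≥0∞) ^ (1 / q.toReal) * E := by
          rw [ENNReal.mul_rpow_of_nonneg _ _ (by positivity), ← ENNReal.rpow_mul,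
            mul_one_div_cancel hq0.ne', ENNReal.rpow_one]

end

theorem bump_sum (M : ℕ) (hM : 1 ≤ M) (t : ℝ) (e : ℕ → ℂ) (he : ∀ j, ‖e j‖ = 1) :
    ‖∑ j ∈ Finset.range M, e j * (bet M (t - j / M) : ℂ)‖ =
      ∑ j ∈ Finset.range M, bet M (t - j / M) := by
  have hM' : (0:ℝ) < M := by exact_mod_cast hM
  by_cases h : ∃ j0 ∈ Finset.range M, bet M (t - j0 / M) ≠ 0
  · obtain ⟨j0, hj0, hne⟩ := h
    have huniq : ∀ j : ℕ, bet M (t - j / M) ≠ 0 → j = j0 := by
      intro j hj
      obtain ⟨a1, a2⟩ := bet_ne hj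
      obtain ⟨b1, b2⟩ := bet_ne hne
      have c1 : (j:ℝ) / M < j0 / M + 1 / M := by linarith
      have c2 : (j0:ℝ) / M < j / M + 1 / M := by linarith
      rw [← add_div, div_lt_div_iff_of_pos_right hM'] at c1 c2
      have d1 : j < j0 + 1 := by exact_mod_cast c1
      have d2 : j0 < j + 1 := by exact_mod_cast c2
      omega
    rw [Finset.sum_eq_single_of_mem j0 hj0, Finset.sum_eq_single_of_mem j0 hj0, norm_mul, he,
      one_mul, Complex.norm_real, Real.norm_of_nonneg (bet_nonneg _ _)]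
    · intro j _ hj
      by_contra hcon
      exact hj (huniq j hcon)
    · intro j _ hj
      have : bet M (t - j / M) = 0 := by
        by_contra hcon
        exact hj (huniq j hcon)
      rw [this, Complex.ofReal_zero, mul_zero]
  · push Not at h
    rw [Finset.sum_eq_zero h, Finset.sum_eq_zero, norm_zero]
    intro j hj
    rw [h j hj, Complex.ofReal_zero, mul_zero]

theorem t_TRV : S_TRV.{u} := by
  classical
  intro X _ _ q hq hU x
  by_contra hx
  have hx' : 0 < ‖x‖ := norm_pos_iff.2 hx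
  obtain ⟨U, hU0, hU⟩ := hU
  -- the exponent
  obtain ⟨r, hr⟩ : ∃ r : ℝ, r = 1 / q.toReal := ⟨_, rfl⟩
  have hr1 : r < 1 := by
    rw [hr]
    by_cases hq' : q = ∞
    · rw [hq']
      simp
    · have hq1 : 1 < q.toReal := by
        rw [← ENNReal.toReal_one]
        exact (ENNReal.toReal_lt_toReal ENNReal.one_ne_top hq').2 hq
      rw [div_lt_one (by linarith)]
      exact hq1
  obtain ⟨M, hM1, hM⟩ : ∃ M : ℕ, 1 ≤ M ∧ 5 / 3 * U < (M:ℝ) ^ (1 - r) := by
    have h1 := (tendsto_rpow_atTop (show 0 < 1 - r by linarith)).comp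
      (tendsto_natCast_atTop_atTop (R := ℝ))
    obtain ⟨M, h2, h3⟩ := ((h1.eventually_gt_atTop (5 / 3 * U)).and (eventually_ge_atTop 1)).exists
    exact ⟨M, h3, h2⟩
  have hM' : (0:ℝ) < M := by exact_mod_cast hM1
  obtain ⟨a, ha⟩ : ∃ a : ℝ, a = ∫ t, bet M t := ⟨_, rfl⟩
  have ha0 : 0 < a := by rw [ha]; exact bet_int M hM1
  -- approximations
  have happ : ∀ j : ℕ, ∃ d : ℤ →₀ ℂ, j < M → ∀ t ∈ Icc (0:ℝ) 1,
      ‖trig d t - (bet M (t - j / M) : ℂ)‖ ≤ a / 4 := by
    intro j
    by_cases hj : j < M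
    · obtain ⟨d, hd⟩ := approx (fun t => bet M (t - j / M)) ((bet_cont M).comp (by fun_prop)) (by
        have e1 : bet M (0 - j / M) = 0 := by
          by_contra hcon
          have := (bet_ne hcon).1
          have h3 : (0:ℝ) ≤ j / M := by positivity
          linarith
        have e2 : bet M (1 - j / M) = 0 := by
          by_contra hcon
          have := (bet_ne hcon).2
          have h4 : (j:ℝ) / M + 1 / M ≤ 1 := by
            rw [← add_div, div_le_one hM']
            exact_mod_cast hj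
          linarith
        rw [e1, e2]) (a / 4) (by positivity)
      exact ⟨d, fun _ => hd⟩
    · exact ⟨0, fun h => absurd h hj⟩
  choose d hd using happ
  obtain ⟨K, hK0, hK⟩ : ∃ K : ℤ, 0 ≤ K ∧ ∀ j < M, ∀ n ∈ (d j).support, |n| ≤ K := by
    refine ⟨∑ j ∈ Finset.range M, ∑ n ∈ (d j).support, |n|, by positivity, fun j hj n hn => ?_⟩
    refine (Finset.single_le_sum (f := fun n : ℤ => |n|) (fun _ _ => abs_nonneg _) hn).trans ?_
    exact Finset.single_le_sum (f := fun j => ∑ n ∈ (d j).support, |n|)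
      (fun _ _ => Finset.sum_nonneg fun _ _ => abs_nonneg _) (Finset.mem_range.2 hj)
  obtain ⟨c, hc⟩ : ∃ c : ℤ →₀ X, c = ∑ j ∈ Finset.range M, blk x (j * (2 * K + 1)) (d j) :=
    ⟨_, rfl⟩
  have hmain := hU (Jp K) (Jp_part K hK0) c
  have hcont : ∀ j : ℕ, Continuous fun t : ℝ => bet M (t - j / M) := fun j =>
    (bet_cont M).comp (by fun_prop)
  have hIO : ∀ g : ℝ → ℝ, Continuous g → IntegrableOn g (Ioc 0 1) := fun g hg =>
    (hg.integrableOn_Icc (a := 0) (b := 1)).mono_set Ioc_subset_Icc_self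
  -- upper bound of the blocks
  have hblk : ∀ j < M, ∫ t in Ioc (0:ℝ) 1, ‖trig (blk x (j * (2 * K + 1)) (d j)) t‖ ≤
      5 / 4 * a * ‖x‖ := by
    intro j hj
    have h1 : ∫ t in Ioc (0:ℝ) 1, ‖trig (blk x (j * (2 * K + 1)) (d j)) t‖ ≤
        ∫ t in Ioc (0:ℝ) 1, (bet M (t - j / M) + a / 4) * ‖x‖ := by
      refine setIntegral_mono_on (hIO _ (trig_cont _).norm)
        (hIO _ (((hcont j).add continuous_const).mul continuous_const)) measurableSet_Ioc ?_
      intro t ht
      rw [trig_blk, norm_smul, norm_mul, ch_norm, one_mul]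
      refine mul_le_mul_of_nonneg_right ?_ (norm_nonneg _)
      have h2 := hd j hj t ⟨ht.1.le, ht.2⟩
      have h3 : ‖trig (d j) t‖ ≤ ‖trig (d j) t - (bet M (t - j / M) : ℂ)‖ +
          ‖(bet M (t - j / M) : ℂ)‖ := by
        have := norm_add_le (trig (d j) t - (bet M (t - j / M) : ℂ)) (bet M (t - j / M) : ℂ)
        rwa [sub_add_cancel] at this
      rw [Complex.norm_real, Real.norm_of_nonneg (bet_nonneg _ _)] at h3
      linarith
    refine h1.trans (le_of_eq ?_)
    have e : ∫ _t in Ioc (0:ℝ) 1, (a / 4 : ℝ) = a / 4 := by simp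
    rw [integral_mul_const, integral_add (hIO _ (hcont j)) (hIO _ continuous_const),
      bet_shift hM1 hj, ← ha, e]
    ring
  -- lower bound of the sum
  have hlow : M * (3 / 4 * a) * ‖x‖ ≤ ∫ t in Ioc (0:ℝ) 1, ‖trig c t‖ := by
    have h1 : ∫ t in Ioc (0:ℝ) 1, (∑ j ∈ Finset.range M, bet M (t - j / M) - M * (a / 4)) * ‖x‖ ≤
        ∫ t in Ioc (0:ℝ) 1, ‖trig c t‖ := by
      refine setIntegral_mono_on (hIO _ (((continuous_finsetSum _ fun j _ => hcont j).sub
        continuous_const).mul continuous_const)) (hIO _ (trig_cont _).norm) measurableSet_Ioc ?_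
      intro t ht
      have h2 : trig c t = (∑ j ∈ Finset.range M, ch (((j * (2 * K + 1) : ℤ) : ℝ)) t *
          trig (d j) t) • x := by
        rw [hc, trig_sum, Finset.sum_smul]
        exact Finset.sum_congr rfl fun j _ => trig_blk _ _ _ _
      rw [h2, norm_smul]
      refine mul_le_mul_of_nonneg_right ?_ (norm_nonneg _)
      have h3 := bump_sum M hM1 t (fun j => ch (((j * (2 * K + 1) : ℤ) : ℝ)) t)
        (fun j => ch_norm _ _)
      rw [← h3]
      have h4 : ‖∑ j ∈ Finset.range M, ch (((j * (2 * K + 1) : ℤ) : ℝ)) t *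
          (bet M (t - j / M) : ℂ)‖ ≤ ‖∑ j ∈ Finset.range M, ch (((j * (2 * K + 1) : ℤ) : ℝ)) t *
          trig (d j) t‖ + ‖∑ j ∈ Finset.range M, ch (((j * (2 * K + 1) : ℤ) : ℝ)) t *
          (bet M (t - j / M) : ℂ) - ∑ j ∈ Finset.range M, ch (((j * (2 * K + 1) : ℤ) : ℝ)) t *
          trig (d j) t‖ := by
        have := norm_add_le (∑ j ∈ Finset.range M, ch (((j * (2 * K + 1) : ℤ) : ℝ)) t *
          trig (d j) t) (∑ j ∈ Finset.range M, ch (((j * (2 * K + 1) : ℤ) : ℝ)) t *
          (bet M (t - j / M) : ℂ) - ∑ j ∈ Finset.range M, ch (((j * (2 * K + 1) : ℤ) : ℝ)) t *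
          trig (d j) t)
        rwa [add_sub_cancel] at this
      have h5 : ‖∑ j ∈ Finset.range M, ch (((j * (2 * K + 1) : ℤ) : ℝ)) t *
          (bet M (t - j / M) : ℂ) - ∑ j ∈ Finset.range M, ch (((j * (2 * K + 1) : ℤ) : ℝ)) t *
          trig (d j) t‖ ≤ M * (a / 4) := by
        rw [← Finset.sum_sub_distrib]
        refine (norm_sum_le _ _).trans ?_
        have h6 := Finset.sum_le_card_nsmul (Finset.range M) (fun j => ‖ch (((j * (2 * K + 1) : ℤ)
          : ℝ)) t * (bet M (t - j / M) : ℂ) - ch (((j * (2 * K + 1) : ℤ) : ℝ)) t *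
          trig (d j) t‖) (a / 4) (fun j hj => by
            rw [← mul_sub, norm_mul, ch_norm, one_mul, norm_sub_rev]
            exact hd j (Finset.mem_range.1 hj) t ⟨ht.1.le, ht.2⟩)
        simpa using h6
      linarith
    refine le_trans (le_of_eq ?_) h1
    have e : ∫ _t in Ioc (0:ℝ) 1, ((M:ℝ) * (a / 4) : ℝ) = M * (a / 4) := by simp
    rw [integral_mul_const, integral_sub (hIO _ (continuous_finsetSum _ fun j _ => hcont j))
      (hIO _ continuous_const), integral_finsetSum _ fun j _ => hIO _ (hcont j),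
      Finset.sum_congr rfl fun j hj => (bet_shift hM1 (Finset.mem_range.1 hj)).trans ha.symm, e,
      Finset.sum_const, Finset.card_range, nsmul_eq_mul]
    ring
  -- conclusion
  have hlq := lq_bound q hq (fun i => nT 1 (DT (Jp K i) c)) M hM1
    (ENNReal.ofReal (5 / 4 * a * ‖x‖)) (fun i hi => by
      rw [hc, DT_blk K d M hK x i, if_neg (not_lt.2 hi)]
      unfold nT
      exact eLpNorm_zero) (fun i => by
      rw [hc, DT_blk K d M hK x i]
      by_cases hi : i < M
      · rw [if_pos hi, nT_one]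
        exact ENNReal.ofReal_le_ofReal (hblk i hi)
      · rw [if_neg hi]
        unfold nT
        rw [show (0 : ℝ → X) = fun _ => 0 from rfl]
        simp)
  rw [nT_one] at hmain
  have h1 : ENNReal.ofReal (M * (3 / 4 * a) * ‖x‖) ≤
      ENNReal.ofReal U * ((M : ℝ≥0∞) ^ (1 / q.toReal) * ENNReal.ofReal (5 / 4 * a * ‖x‖)) :=
    (ENNReal.ofReal_le_ofReal hlow).trans (hmain.trans (by gcongr))
  rw [← hr] at h1
  have h2 : ((M : ℝ≥0∞) ^ r) = ENNReal.ofReal ((M:ℝ) ^ r) := by
    rw [← ENNReal.ofReal_rpow_of_pos hM', ENNReal.ofReal_natCast]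
  rw [h2, ← ENNReal.ofReal_mul (by positivity), ← ENNReal.ofReal_mul hU0.le,
    ENNReal.ofReal_le_ofReal_iff (by positivity)] at h1
  have h3 : (M:ℝ) ^ (1 - r) * (M:ℝ) ^ r = M := by
    rw [← Real.rpow_add hM', sub_add_cancel, Real.rpow_one]
  have h4 : 0 < (M:ℝ) ^ r := Real.rpow_pos_of_pos hM' _
  have h5 : 5 / 3 * U * (M:ℝ) ^ r < M := by
    calc 5 / 3 * U * (M:ℝ) ^ r < (M:ℝ) ^ (1 - r) * (M:ℝ) ^ r := mul_lt_mul_of_pos_right hM h4
      _ = M := h3
  have h6 : 0 < a * ‖x‖ := by positivity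
  nlinarith [mul_lt_mul_of_pos_right h5 h6]

end Pool.Agent.R374.FD
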